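import Pool.Agent.J4.H74.PlaneKahler

/-!
# Equicontinuity of holomorphic maps does not propagate from a Hartogs figure to the polydisk

The maps `(z, w) ↦ [z_1 - a : w : 1 / (k + 1)]` from the unit polydisk to the complex projective plane,
with `a = 1 - r`, are equicontinuous on the Hartogs figure `H_n^1(r)`, where `(z_1 - a, w) ≠ (0, 0)`,
but not at the points with `z_1 = a`, `w = 0`.
-/

set_option autoImplicit false

open scoped Manifold ContDiff ComplexConjugate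
open Set Filter Topology

namespace Pool.Agent.Results.MP_7ec995_an.ProjectivePlane

open Pool.Agent.J4.H74

/-- The point `[v]` of the projective plane, and a fixed point for `v = 0`. -/
noncomputable def pt (v : Fin 3 → ℂ) : Plane :=
  open Classical in
  if h : v ≠ 0 then Plane.mk ⟨v, h⟩ else Plane.mk ⟨ins 0 0, ins_ne_zero 0 0⟩

lemma pt_of_ne {v : Fin 3 → ℂ} (h : v ≠ 0) : pt v = Plane.mk ⟨v, h⟩ := by
  unfold pt
  rw [dif_pos h]

lemma pt_smul {c : ℂ} (hc : c ≠ 0) {v : Fin 3 → ℂ} (h : v ≠ 0) : pt (c • v) = pt v := by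
  rw [pt_of_ne h, pt_of_ne (smul_ne_zero hc h)]
  apply Subtype.ext
  exact prj_smul hc v

lemma continuousAt_pt {v : Fin 3 → ℂ} (h : v ≠ 0) : ContinuousAt pt v := by
  have ho : IsOpen {v : Fin 3 → ℂ | v ≠ 0} := isOpen_ne
  have hc : ContinuousOn pt {v : Fin 3 → ℂ | v ≠ 0} := by
    rw [continuousOn_iff_continuous_domRestrict]
    refine Plane.continuous_mk.congr ?_
    intro x
    exact (pt_of_ne x.2).symm
  exact hc.continuousAt (ho.mem_nhds h)

/-- Homogeneous coordinates. -/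
def vec (x y t : ℂ) : Fin 3 → ℂ := ![x, y, t]

lemma vec_ne {x y t : ℂ} (h : x ≠ 0 ∨ y ≠ 0 ∨ t ≠ 0) : vec x y t ≠ 0 := by
  intro h0
  have e0 := congrFun h0 0
  have e1 := congrFun h0 1
  have e2 := congrFun h0 2
  simp [vec] at e0 e1 e2
  tauto

lemma continuous_vec : Continuous fun p : ℂ × ℂ × ℂ => vec p.1 p.2.1 p.2.2 := by
  refine continuous_pi fun i => ?_
  fin_cases i
  · exact continuous_fst
  · exact continuous_fst.comp continuous_snd
  · exact continuous_snd.comp continuous_snd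

section Dist

variable {X : Type} [TopologicalSpace X] {d : X → X → ℝ}

lemma ball_mem (hd : IsDist d) (x : X) {ε : ℝ} (hε : 0 < ε) : ∀ᶠ y in 𝓝 x, d x y < ε := by
  have ho : IsOpen {y | d x y < ε} := by
    rw [hd.isOpen_iff]
    intro y hy
    refine ⟨ε - d x y, by simpa using hy, fun z hz => ?_⟩
    have := hd.triangle x y z
    show d x z < ε
    linarith
  exact ho.mem_nhds (by show d x x < ε; rw [hd.self]; exact hε)

end Dist

/-- The maps of the family. -/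
noncomputable def fam {n : ℕ} (i₀ : Fin n) (a : ℂ) (t : ℂ) (p : (Fin n → ℂ) × ℂ) : Plane :=
  pt (vec (p.1 i₀ - a) p.2 t)

lemma fam_holomorphic {n : ℕ} (i₀ : Fin n) (a : ℂ) {t : ℂ} (ht : t ≠ 0)
    (U : Set ((Fin n → ℂ) × ℂ)) :
    ContMDiffOn 𝓘(ℂ, (Fin n → ℂ) × ℂ) 𝓘(ℂ, Fin 2 → ℂ) ω (fam i₀ a t) U := by
  have h1 : ContMDiffOn 𝓘(ℂ, Fin 2 → ℂ) 𝓘(ℂ, Fin 2 → ℂ) ω (chart 2).symm (chart 2).target :=
    contMDiffOn_symm_of_mem_maximalAtlas (chart_mem_maximalAtlas 2)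
  have h2 : ContDiff ℂ ω (fun p : (Fin n → ℂ) × ℂ => (![(p.1 i₀ - a) / t, p.2 / t] : Fin 2 → ℂ)) := by
    rw [contDiff_pi]
    intro i
    fin_cases i
    · simp only [Fin.zero_eta, Matrix.cons_val_zero]
      exact ((((contDiff_apply ℂ ℂ i₀).comp contDiff_fst).sub contDiff_const).div_const t)
    · simp only [Fin.mk_one, Matrix.cons_val_one, Matrix.cons_val_zero]
      exact contDiff_snd.div_const t
  have h3 : fam i₀ a t = (chart 2).symm ∘
      (fun p : (Fin n → ℂ) × ℂ => (![(p.1 i₀ - a) / t, p.2 / t] : Fin 2 → ℂ)) := by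
    funext p
    have hne : vec (p.1 i₀ - a) p.2 t ≠ 0 := vec_ne (Or.inr (Or.inr ht))
    have e : vec (p.1 i₀ - a) p.2 t = t • ins 2 (![(p.1 i₀ - a) / t, p.2 / t]) := by
      funext i
      fin_cases i
      · have := ins_succAbove 2 (![(p.1 i₀ - a) / t, p.2 / t]) 0
        have e0 : (2 : Fin 3).succAbove 0 = 0 := rfl
        rw [e0] at this
        simp only [vec, Pi.smul_apply, smul_eq_mul, Fin.zero_eta, this, Matrix.cons_val_zero]
        field_simp
      · have := ins_succAbove 2 (![(p.1 i₀ - a) / t, p.2 / t]) 1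
        have e0 : (2 : Fin 3).succAbove 1 = 1 := rfl
        rw [e0] at this
        simp only [vec, Pi.smul_apply, smul_eq_mul, Fin.mk_one, this, Matrix.cons_val_one,
          Matrix.cons_val_zero]
        field_simp
      · have := ins_self 2 (![(p.1 i₀ - a) / t, p.2 / t])
        simp only [vec, Pi.smul_apply, smul_eq_mul, Fin.reduceFinMk, this]
        simp
    show pt (vec (p.1 i₀ - a) p.2 t) = (chart 2).symm (![(p.1 i₀ - a) / t, p.2 / t])
    rw [e, pt_smul ht (ins_ne_zero _ _), pt_of_ne (ins_ne_zero _ _), chart_symm_apply]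
  rw [h3]
  exact (h1.comp (t := (chart 2).target) h2.contMDiff.contMDiffOn fun p _ => mem_univ _)

/-- The family is equicontinuous where `(z_1 - a, w) ≠ (0, 0)`. -/
lemma fam_equicont {n : ℕ} (i₀ : Fin n) (a : ℂ) {d : Plane → Plane → ℝ} (hd : IsDist d)
    (p₀ : (Fin n → ℂ) × ℂ) (h : p₀.1 i₀ - a ≠ 0 ∨ p₀.2 ≠ 0) {ε : ℝ} (hε : 0 < ε) :
    ∀ᶠ p in 𝓝 p₀, ∀ t ∈ Icc (0 : ℝ) 1, d (fam i₀ a (t : ℂ) p) (fam i₀ a (t : ℂ) p₀) < ε := by
  refine (isCompact_Icc (a := (0 : ℝ)) (b := 1)).eventually_forall_of_forall_eventually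
    (P := fun p (t : ℝ) => d (fam i₀ a (t : ℂ) p) (fam i₀ a (t : ℂ) p₀) < ε) ?_
  intro t _
  have hne : vec (p₀.1 i₀ - a) p₀.2 (t : ℂ) ≠ 0 := vec_ne (by tauto)
  have hc : ContinuousAt (fun q : ((Fin n → ℂ) × ℂ) × ℝ => fam i₀ a (q.2 : ℂ) q.1) (p₀, t) := by
    have h1 : Continuous (fun q : ((Fin n → ℂ) × ℂ) × ℝ => vec (q.1.1 i₀ - a) q.1.2 (q.2 : ℂ)) := by
      have : Continuous (fun q : ((Fin n → ℂ) × ℂ) × ℝ => ((q.1.1 i₀ - a, q.1.2, (q.2 : ℂ)) :
          ℂ × ℂ × ℂ)) := by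
        fun_prop
      exact continuous_vec.comp this
    exact ContinuousAt.comp (f := fun q : ((Fin n → ℂ) × ℂ) × ℝ =>
      vec (q.1.1 i₀ - a) q.1.2 (q.2 : ℂ)) (g := pt) (continuousAt_pt hne) h1.continuousAt
  have h1 : ∀ᶠ q : ((Fin n → ℂ) × ℂ) × ℝ in 𝓝 (p₀, t),
      d (fam i₀ a t p₀) (fam i₀ a (q.2 : ℂ) q.1) < ε / 2 :=
    hc.eventually (ball_mem hd _ (half_pos hε))
  have h2 : ∀ᶠ q : ((Fin n → ℂ) × ℂ) × ℝ in 𝓝 (p₀, t),
      d (fam i₀ a t p₀) (fam i₀ a (q.2 : ℂ) p₀) < ε / 2 := by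
    have hc2 : ContinuousAt (fun q : ((Fin n → ℂ) × ℂ) × ℝ => fam i₀ a (q.2 : ℂ) p₀) (p₀, t) := by
      have h3 : ContinuousAt (fun q : ((Fin n → ℂ) × ℂ) × ℝ => ((p₀, q.2) :
        ((Fin n → ℂ) × ℂ) × ℝ)) (p₀, t) := by fun_prop
      exact ContinuousAt.comp (f := fun q : ((Fin n → ℂ) × ℂ) × ℝ => ((p₀, q.2) :
        ((Fin n → ℂ) × ℂ) × ℝ)) (g := fun q : ((Fin n → ℂ) × ℂ) × ℝ => fam i₀ a (q.2 : ℂ) q.1)
        hc h3
    exact hc2.eventually (ball_mem hd _ (half_pos hε))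
  filter_upwards [h1, h2] with q hq1 hq2
  have h4 := hd.triangle (fam i₀ a (q.2 : ℂ) q.1) (fam i₀ a t p₀) (fam i₀ a (q.2 : ℂ) p₀)
  have h5 := hd.symm (fam i₀ a (q.2 : ℂ) q.1) (fam i₀ a t p₀)
  linarith

/-- There is a compact Kähler manifold `X` (the complex projective plane) such that for all `n ≥ 1`
and all `0 < r < 1` some family `F` of holomorphic maps from the unit polydisk `Δ^{n+1}` to `X` is
equicontinuous on the Hartogs figure `H_n^1(r)` but not at some point of `Δ^{n+1}`, for every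
distance function on `X` which induces the topology. -/
theorem result :
    ∃ (X : Type) (_ : TopologicalSpace X) (_ : ChartedSpace (Fin 2 → ℂ) X),
      IsCompactKahler (Fin 2 → ℂ) X ∧
      ∀ n : ℕ, 1 ≤ n → ∀ r : ℝ, 0 < r → r < 1 →
        ∃ F : Set ((Fin n → ℂ) × ℂ → X),
          (∀ f ∈ F, ContMDiffOn 𝓘(ℂ, (Fin n → ℂ) × ℂ) 𝓘(ℂ, Fin 2 → ℂ) ω f (unitPolydisk n)) ∧
          ∃ p ∈ unitPolydisk n, ∀ d : X → X → ℝ, IsDist d →
            EquicontOn d F (hartogs n r) ∧ ¬ EquicontAt d F (unitPolydisk n) p := by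
  refine ⟨Plane, inferInstance, inferInstance, isCompactKahler_plane, ?_⟩
  intro n hn r hr0 hr1
  set i₀ : Fin n := ⟨0, hn⟩ with hi₀
  set a : ℂ := ((1 - r : ℝ) : ℂ) with ha
  have hna : ‖a‖ = 1 - r := by
    rw [ha, Complex.norm_real, Real.norm_eq_abs, abs_of_pos (by linarith)]
  refine ⟨range fun k : ℕ => fam i₀ a (((1 / ((k : ℝ) + 1) : ℝ)) : ℂ), ?_, (fun _ => a, 0), ?_, ?_⟩
  · rintro _ ⟨k, rfl⟩
    refine fam_holomorphic i₀ a ?_ _
    have : (0 : ℝ) < 1 / ((k : ℝ) + 1) := by positivity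
    exact_mod_cast this.ne'
  · refine ⟨fun i => ?_, by simp⟩
    show ‖a‖ < 1
    rw [hna]
    linarith
  intro d hd
  constructor
  · -- equicontinuity on the Hartogs figure
    intro p₀ hp₀ ε hε
    have hne : p₀.1 i₀ - a ≠ 0 ∨ p₀.2 ≠ 0 := by
      rcases hp₀ with h | h
      · left
        intro h0
        have h1 : p₀.1 i₀ = a := sub_eq_zero.1 h0
        have h2 : ‖p₀.1 i₀‖ < 1 - r := h.1 i₀
        rw [h1, hna] at h2
        exact lt_irrefl _ h2
      · right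
        intro h0
        have h1 : r < ‖p₀.2‖ := h.2.1
        rw [h0, norm_zero] at h1
        linarith
    obtain ⟨δ, hδ, hball⟩ := Metric.eventually_nhds_iff_ball.1 (fam_equicont i₀ a hd p₀ hne hε)
    refine ⟨δ, hδ, ?_⟩
    rintro _ ⟨k, rfl⟩ z _ hz
    refine hball z (by rwa [Metric.mem_ball, dist_eq_norm]) (1 / ((k : ℝ) + 1)) ⟨by positivity, ?_⟩
    rw [div_le_one (by positivity)]
    have : (0 : ℝ) ≤ k := Nat.cast_nonneg k
    linarith
  · -- failure at the point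
    intro hF
    set P₀ : Plane := pt (vec 0 0 1) with hP₀
    set P₁ : Plane := pt (vec 1 0 0) with hP₁
    have h0ne : vec 0 0 1 ≠ 0 := vec_ne (by simp)
    have h1ne : vec 1 0 0 ≠ 0 := vec_ne (by simp)
    have hne : P₁ ≠ P₀ := by
      intro h
      rw [hP₀, hP₁, pt_of_ne h0ne, pt_of_ne h1ne] at h
      have h2 := congrFun (congrFun (congrArg Subtype.val h) 0) 0
      have h3 : prj (vec 1 0 0) 0 0 = prj (vec 0 0 1) 0 0 := h2
      have h4 : prj (vec 1 0 0) 0 0 ≠ 0 := (prj_diag_ne_zero h1ne 0).2 (by simp [vec])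
      apply h4
      rw [h3]
      by_contra h5
      exact (prj_diag_ne_zero h0ne 0).1 h5 (by simp [vec])
    have hpos : 0 < d P₁ P₀ := hd.pos _ _ hne
    obtain ⟨δ, hδ, hδF⟩ := hF (d P₁ P₀ / 2) (half_pos hpos)
    -- a nearby point
    set s : ℝ := min δ r / 2 with hs
    have hmin : 0 < min δ r := lt_min hδ hr0
    have hs0 : 0 < s := half_pos hmin
    have hsδ : s < δ := by
      have := min_le_left δ r
      linarith
    have hsr : s < r := by
      have := min_le_right δ r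
      linarith
    have hsC : (s : ℂ) ≠ 0 := by exact_mod_cast hs0.ne'
    -- the limit of the values at the nearby point
    have hlim : Tendsto (fun k : ℕ => pt (vec (s : ℂ) 0 (((1 / ((k : ℝ) + 1) : ℝ)) : ℂ))) atTop
        (𝓝 (pt (vec (s : ℂ) 0 0))) := by
      have hne' : vec (s : ℂ) 0 0 ≠ 0 := vec_ne (Or.inl hsC)
      refine (continuousAt_pt hne').tendsto.comp ?_
      have h1 : Tendsto (fun k : ℕ => (((s : ℂ), (0 : ℂ), (((1 / ((k : ℝ) + 1) : ℝ)) : ℂ)) : ℂ × ℂ × ℂ))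
          atTop (𝓝 ((s : ℂ), (0 : ℂ), (0 : ℂ))) := by
        refine Tendsto.prodMk_nhds tendsto_const_nhds (Tendsto.prodMk_nhds tendsto_const_nhds ?_)
        have h2 := tendsto_one_div_add_atTop_nhds_zero_nat (𝕜 := ℝ)
        have h3 := (Complex.continuous_ofReal.tendsto 0).comp h2
        rw [Complex.ofReal_zero] at h3
        exact h3
      exact (continuous_vec.tendsto _).comp h1
    have hsP : pt (vec (s : ℂ) 0 0) = P₁ := by
      have : vec (s : ℂ) 0 0 = (s : ℂ) • vec 1 0 0 := by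
        funext i
        fin_cases i <;> simp [vec]
      rw [this, pt_smul hsC h1ne]
    rw [hsP] at hlim
    obtain ⟨k, hk⟩ := (hlim.eventually (ball_mem hd P₁ (half_pos hpos))).exists
    have htk : (0 : ℝ) < 1 / ((k : ℝ) + 1) := by positivity
    have htC : (((1 / ((k : ℝ) + 1) : ℝ)) : ℂ) ≠ 0 := by exact_mod_cast htk.ne'
    have hmem : ((fun _ => a + (s : ℂ), 0) : (Fin n → ℂ) × ℂ) ∈ unitPolydisk n := by
      refine ⟨fun i => ?_, by simp⟩
      show ‖a + (s : ℂ)‖ < 1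
      rw [ha, ← Complex.ofReal_add, Complex.norm_real, Real.norm_eq_abs, abs_of_pos (by linarith)]
      linarith
    have hdist : ‖((fun _ => a + (s : ℂ), 0) : (Fin n → ℂ) × ℂ) - (fun _ => a, 0)‖ < δ := by
      rw [Prod.mk_sub_mk, Prod.norm_def]
      refine max_lt ?_ (by simpa using hδ)
      rw [pi_norm_lt_iff hδ]
      intro i
      simp only [Pi.sub_apply, add_sub_cancel_left, Complex.norm_real, Real.norm_eq_abs]
      rw [abs_of_pos hs0]
      exact hsδ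
    have hval := hδF _ ⟨k, rfl⟩ _ hmem hdist
    have e1 : fam i₀ a (((1 / ((k : ℝ) + 1) : ℝ)) : ℂ) ((fun _ => a + (s : ℂ), 0) : (Fin n → ℂ) × ℂ) =
        pt (vec (s : ℂ) 0 (((1 / ((k : ℝ) + 1) : ℝ)) : ℂ)) := by
      simp only [fam, add_sub_cancel_left]
    have e2 : fam i₀ a (((1 / ((k : ℝ) + 1) : ℝ)) : ℂ) ((fun _ => a, 0) : (Fin n → ℂ) × ℂ) = P₀ := by
      simp only [fam, sub_self]
      have : vec 0 0 (((1 / ((k : ℝ) + 1) : ℝ)) : ℂ) = (((1 / ((k : ℝ) + 1) : ℝ)) : ℂ) • vec 0 0 1 := by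
        funext i
        fin_cases i <;> simp [vec]
      rw [this, pt_smul htC h0ne]
    simp only [e1, e2] at hval
    have h6 := hd.triangle P₁ (pt (vec (s : ℂ) 0 (((1 / ((k : ℝ) + 1) : ℝ)) : ℂ))) P₀
    linarith

end Pool.Agent.Results.MP_7ec995_an.ProjectivePlane
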